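import Pool.Agent.H135R2.VS.Conn

set_option autoImplicit false

/-! # Linked pairs in dimension `d + 1` are globally linked in dimension `d`: the core -/

namespace Pool.Agent.Helper55K1.LK

open Pool.Agent.H135R2.VS Set Matrix MvPolynomial

variable {V : Type*} {d : ℕ}

/-- Every infinitesimal motion of `(G, p)` keeps the distance of `u` and `v` to first order. -/
def Lk (G : SimpleGraph V) (p : Conf d V) (u v : V) : Prop :=
  ∀ m : Conf d V, (∀ x y, G.Adj x y → fl p m x y = 0) → fl p m u v = 0

/-- The configuration in dimension `d + 1` with last coordinate `f`. -/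
def up (p : Conf d V) (f : V → ℝ) : Conf (d + 1) V :=
  fun i => Fin.snoc (α := fun _ => ℝ) (p i) (f i)

theorem fl_up (p a : Conf d V) (f b : V → ℝ) (i j : V) :
    fl (up p f) (up a b) i j = fl p a i j + (f i - f j) * (b i - b j) := by
  simp [fl, up, Fin.sum_univ_castSucc]

theorem gen_up {p : Conf d V} (hp : Gen p) {f : V → ℝ}
    (hf : AlgebraicIndependent (adj ⊥ (range (unc p))) f) : Gen (up p f) := by
  have h1 : AlgebraicIndependent (⊥ : SF) (Sum.elim (unc p) f) := algInd_sum (bot_of_rat hp) hf
  let φ : V × Fin (d + 1) → (V × Fin d) ⊕ V :=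
    fun c => Fin.lastCases (motive := fun _ => (V × Fin d) ⊕ V) (Sum.inr c.1)
      (fun a => Sum.inl (c.1, a)) c.2
  have hφ : Function.Injective φ := by
    rintro ⟨x, a⟩ ⟨y, b⟩ h
    induction a using Fin.lastCases with
    | last =>
      induction b using Fin.lastCases with
      | last => simpa [φ] using h
      | cast b => simp [φ] at h
    | cast a =>
      induction b using Fin.lastCases with
      | last => simp [φ] at h
      | cast b => simpa [φ] using h
  have h2 := h1.comp φ hφ
  have h3 : (Sum.elim (unc p) f ∘ φ) = fun i : V × Fin (d + 1) => up p f i.1 i.2 := by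
    funext ⟨x, a⟩
    induction a using Fin.lastCases with
    | last => simp [φ, up]
    | cast a => simp [φ, up, unc]
  rw [h3] at h2
  exact rat_of_sf h2

variable [Fintype V] [DecidableEq V]

theorem dense_up {p : Conf d V} (hp : Gen p) : Dense {f : V → ℝ | Gen (up p f)} := by
  have hc : Countable (adj ⊥ (range (unc p))) := countable_adj (countable_range _)
  exact (dense_algInd (ι := V) (K := adj ⊥ (range (unc p)))).mono fun f hf => gen_up hp hf

/-- The vectors `((f x - f y) (b x - b y))` for all `f`. -/
def Good (G : SimpleGraph V) (p : Conf d V) (b : V → ℝ) : Prop :=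
  ∀ f : V → ℝ, ∃ a : Conf d V, ∀ x y, G.Adj x y → fl p a x y = (f x - f y) * (b x - b y)

theorem good_ext {G : SimpleGraph V} {p : Conf d V} (hp : Gen p) {u v : V}
    (hL : ∀ P : Conf (d + 1) V, Gen P → Lk G P u v) {b : V → ℝ} (hb : Good G p b) (f : V → ℝ) :
    ∃ a : Conf d V, (∀ x y, G.Adj x y → fl p a x y = (f x - f y) * (b x - b y)) ∧
      fl p a u v = (f u - f v) * (b u - b v) := by
  let W : Submodule ℝ (V → ℝ) :=
    { carrier := {f | ∃ a : Conf d V,
        (∀ x y, G.Adj x y → fl p a x y = (f x - f y) * (b x - b y)) ∧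
        fl p a u v = (f u - f v) * (b u - b v)}
      add_mem' := by
        rintro f g ⟨a, ha, ha'⟩ ⟨c, hc, hc'⟩
        refine ⟨a + c, fun x y h => ?_, ?_⟩
        · rw [fl_add, ha x y h, hc x y h]
          simp only [Pi.add_apply]; ring
        · rw [fl_add, ha', hc']
          simp only [Pi.add_apply]; ring
      zero_mem' := by
        refine ⟨0, fun x y h => ?_, ?_⟩ <;> simp [fl]
      smul_mem' := by
        rintro t f ⟨a, ha, ha'⟩
        refine ⟨t • a, fun x y h => ?_, ?_⟩
        · rw [fl_smul, ha x y h]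
          simp only [Pi.smul_apply, smul_eq_mul]; ring
        · rw [fl_smul, ha']
          simp only [Pi.smul_apply, smul_eq_mul]; ring }
  have hW : {f : V → ℝ | Gen (up p f)} ⊆ (W : Set (V → ℝ)) := by
    intro g hg
    obtain ⟨a, ha⟩ := hb g
    refine ⟨a, ha, ?_⟩
    have h1 := hL _ hg (up a (-b)) (fun x y h => by
      rw [fl_up, ha x y h]; simp only [Pi.neg_apply]; ring)
    rw [fl_up] at h1
    simp only [Pi.neg_apply] at h1
    linarith
  have hcl : IsClosed (W : Set (V → ℝ)) := Submodule.closed_of_finiteDimensional W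
  have htop : (W : Set (V → ℝ)) = univ := by
    rw [← hcl.closure_eq]
    exact ((dense_up hp).mono hW).closure_eq
  have : f ∈ (W : Set (V → ℝ)) := by rw [htop]; trivial
  exact this

theorem lk_down {G : SimpleGraph V} {p : Conf d V} (hp : Gen p) {u v : V}
    (hL : ∀ P : Conf (d + 1) V, Gen P → Lk G P u v) : Lk G p u v := by
  intro m hm
  obtain ⟨f, hf⟩ := (dense_up hp).nonempty
  have h1 := hL _ hf (up m 0) (fun x y h => by rw [fl_up, hm x y h]; simp)
  rw [fl_up] at h1
  simpa using h1

theorem core {G : SimpleGraph V} {p q : Conf d V} (hp : Gen p)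
    (hq : ∀ i j, G.Adj i j → fl q q i j = fl p p i j) {u v : V}
    (hL : ∀ P : Conf (d + 1) V, Gen P → Lk G P u v) : fl q q u v = fl p p u v := by
  have hgood : ∀ k : Fin d, Good G p (fun i => q i k) := by
    intro k f
    obtain ⟨a, ha⟩ := range_eq hp hq (fun i => f i • (Pi.single k 1 : Fin d → ℝ))
    refine ⟨a, fun x y h => ?_⟩
    rw [← ha x y h]
    unfold fl
    rw [Finset.sum_eq_single k]
    · simp; ring
    · intro b _ hb
      simp [Pi.single_eq_of_ne hb]
    · intro h'; exact absurd (Finset.mem_univ k) h'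
  choose a ha ha' using fun k : Fin d => good_ext hp hL (hgood k) (fun i => q i k)
  have hs : ∀ x y, fl p (∑ k, a k) x y = ∑ k, fl p (a k) x y := by
    intro x y
    unfold fl
    rw [Finset.sum_comm]
    refine Finset.sum_congr rfl fun c _ => ?_
    rw [← Finset.mul_sum]
    simp [Finset.sum_apply, Finset.sum_sub_distrib]
  have h1 : ∀ x y, G.Adj x y → fl p ((∑ k, a k) - p) x y = 0 := by
    intro x y h
    rw [fl_sub, hs, Finset.sum_congr rfl fun k _ => ha k x y h, ← hq x y h]
    exact sub_self _
  have h2 := lk_down hp hL _ h1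
  rw [fl_sub, hs, Finset.sum_congr rfl fun k _ => ha' k] at h2
  have h3 : fl q q u v = ∑ k, (q u k - q v k) * (q u k - q v k) := rfl
  rw [h3]
  linarith

end Pool.Agent.Helper55K1.LK
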